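import Mathlib
import Pool.Agent.H10.MC.Single

/-!
# Malcev coherence, elements with finitely many conjugates, and finite extensions (MP_7f4e02_al)

`FinMalcev S` (the semigroup `S` has a finite Malcev presentation) and `MalcevCoh G` (the group `G`
is Malcev coherent) are the formulations of the frozen statements of the problem; they are defined
in `Pool/Agent/H10/MC/Conv.lean`. `IsFC g` (the element `g` has finitely many conjugates) is defined
in `Pool/Agent/H10/MC/FC.lean`. Let `FC(G)` be the set of the elements of `G` with finitely many
conjugates.

* If `N ⊆ FC(G)` is a normal subgroup of `G` and `G / N` is Malcev coherent, then `G` is Malcev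
  coherent (for instance for central extensions and for extensions with finite kernel).
* Quotients of Malcev coherent groups by finitely generated normal subgroups are Malcev coherent.
* If `H` is a Malcev coherent subgroup of `G` and `G = H FC(G)`, then `G` is Malcev coherent (for
  instance direct products of Malcev coherent groups with finite groups or with abelian groups).
  If `H` has finite index, this says that every element of `G` acts on some subgroup of finite index
  of `H` as an element of `H` does.
* If `H` is Malcev coherent and normal of finite index in `G`, then a finitely generated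
  subsemigroup `S` of `G` has a finite Malcev presentation if every coset of `H` met by `S` contains
  an element `w` of `S` with `w⁻¹ ∈ S FC(G)` (for instance a unit of `S`, or an element of `S` with
  a positive power in `FC(G)`).
* The question whether Malcev coherence passes to finite extensions `G` of `H` is equivalent to the
  same question for finitely generated `G` with `FC(G) ⊆ H`.

The key is that if `u, v` are positive words with `u = v n`, `n ∈ N`, and `y` is a positive word such
that `y v` centralises `n`, then `u y v = v y u` is a positive relation; so `u v⁻¹` is centralised by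
a subgroup of finite index of the universal group of `S`.
-/

set_option autoImplicit false

namespace Pool.Agent.Results.MP_7f4e02_al.FCExtensions

open Subgroup Pool.Agent.H10.MC

/-- (1) Closure of the class of Malcev coherent groups under extensions with kernel in the
FC-centre, (2) under quotients by finitely generated normal subgroups, (3) under passage from `H` to
`G = H FC(G)`; (4) a finite extension `G` of a Malcev coherent group `H` is Malcev coherent if every
element of `G` acts on a subgroup of finite index of `H` as some element of `H` does; (5) a finitely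
generated subsemigroup `S` of a finite extension of a Malcev coherent group `H` has a finite Malcev
presentation if every coset of `H` met by `S` contains an element of `S` whose inverse is in
`S FC(G)`; (6) reduction of the question on finite extensions to the case of finitely generated `G`
with `FC(G) ⊆ H`. -/
theorem result :
    (∀ (G : Type) [Group G] (N : Subgroup G) [N.Normal],
      (∀ x ∈ N, IsFC x) → MalcevCoh (G ⧸ N) → MalcevCoh G) ∧
    (∀ (G : Type) [Group G] (N : Subgroup G) [N.Normal],
      N.FG → MalcevCoh G → MalcevCoh (G ⧸ N)) ∧
    (∀ (G : Type) [Group G] (H : Subgroup G),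
      MalcevCoh H → (∀ g : G, ∃ h ∈ H, IsFC (h⁻¹ * g)) → MalcevCoh G) ∧
    (∀ (G : Type) [Group G] (H : Subgroup G), H.Normal → H.FiniteIndex → MalcevCoh H →
      (∀ g : G, ∃ h ∈ H, ∃ H₀ : Subgroup G, H₀ ≤ H ∧ H₀.FiniteIndex ∧
        ∀ x ∈ H₀, g * x * g⁻¹ = h * x * h⁻¹) → MalcevCoh G) ∧
    (∀ (G : Type) [Group G] (H : Subgroup G), H.Normal → H.FiniteIndex → MalcevCoh H →
      ∀ S : Subsemigroup G, (∃ T : Finset G, S = Subsemigroup.closure (T : Set G)) →
        (∀ s ∈ S, ∃ w ∈ S, ∃ w' ∈ S, ∃ c : G, IsFC c ∧ s⁻¹ * w ∈ H ∧ w⁻¹ = w' * c) →
          FinMalcev S) ∧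
    ((∀ (G : Type) [Group G] (H : Subgroup G), Group.FG G → H.Normal → H.FiniteIndex →
        (∀ g : G, IsFC g → g ∈ H) → MalcevCoh H → MalcevCoh G) ↔
      (∀ (G : Type) [Group G] (H : Subgroup G), H.Normal → H.FiniteIndex →
        MalcevCoh H → MalcevCoh G)) := by
  have h3 : ∀ (G : Type) [Group G] (H : Subgroup G),
      MalcevCoh H → (∀ g : G, ∃ h ∈ H, IsFC (h⁻¹ * g)) → MalcevCoh G := fun G _ H hH hG =>
    malcevCoh_iff.2 (FR_of_FC_product H (malcevCoh_iff.1 hH) hG)
  refine ⟨fun G _ N _ hN h => malcevCoh_iff.2 (FR_of_FC N hN (malcevCoh_iff.1 h)),
    fun G _ N _ hN h => malcevCoh_iff.2 (FR_quotient N hN (malcevCoh_iff.1 h)), h3, ?_, ?_, ?_⟩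
  · intro G _ H _ _ hH hG
    refine h3 G H hH fun g => ?_
    obtain ⟨h, hh, H₀, -, hfin, hx⟩ := hG g
    refine ⟨h, hh, (isFC_iff _).2 ?_⟩
    refine Subgroup.finiteIndex_of_le (H := H₀) ?_
    intro x hx₀
    rw [Subgroup.mem_centralizer_iff]
    intro z hz
    have hz' : z = h⁻¹ * g := hz
    rw [hz']
    have e := hx x hx₀
    calc h⁻¹ * g * x = h⁻¹ * (g * x * g⁻¹) * g := by group
      _ = h⁻¹ * (h * x * h⁻¹) * g := by rw [e]
      _ = x * (h⁻¹ * g) := by group
  · intro G _ H hn hi hH S hS hyp
    exact finMalcev_of_units H (malcevCoh_iff.1 hH) S hS hyp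
  · constructor
    · intro hyp G _ H hn hi hH
      refine malcevCoh_iff.2 (reduction ?_ G H hn hi (malcevCoh_iff.1 hH))
      intro G _ H hfg hn hi hFC hH
      exact malcevCoh_iff.1 (hyp G H hfg hn hi hFC (malcevCoh_iff.2 hH))
    · intro hyp G _ H _ hn hi _ hH
      exact hyp G H hn hi hH

end Pool.Agent.Results.MP_7f4e02_al.FCExtensions
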